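import Pool.Agent.FC14.Exist

/-!
For every large `n` there is a 5-critical graph on exactly `n` vertices with at least
`(2/13 - o(1)) n^2` edges.
-/

set_option autoImplicit false

namespace Pool.Agent.Results.MP_f0dd41_co.FiveCritical

theorem result : ∀ ε : ℝ, 0 < ε → ∃ n₀ : ℕ, ∀ n : ℕ, n₀ ≤ n →
    ∃ G : SimpleGraph (Fin n), G.chromaticNumber = 5 ∧
      (∀ e ∈ G.edgeSet, (G.deleteEdges {e}).chromaticNumber < 5) ∧
      (∀ v : Fin n, (G.induce ({v}ᶜ : Set (Fin n))).chromaticNumber < 5) ∧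
      (2 / 13 - ε) * (n : ℝ) ^ 2 ≤ (Nat.card G.edgeSet : ℝ) :=
  FC14.exists_of_F_bound 4 (by norm_num) (2 / 13) FC14.five

end Pool.Agent.Results.MP_f0dd41_co.FiveCritical
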