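import Pool.Agent.FC14.Exist

/-!
For every large `n` there is a 4-critical graph on exactly `n` vertices with at least
`(1/14 - o(1)) n^2` edges.

The construction (files `Pool/Agent/FC14/`): finitely many classes, each consisting of one or two
independent sets of `p^2` vertices, whose `i`-th vertices share one overhead vertex; a grid of `2 p` line
vertices per class certifies the presence of an exceptional overhead vertex; the independent sets of
different classes are completely joined along a bipartite pattern. One gadget of bounded size
closes the graph.
-/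

set_option autoImplicit false

namespace Pool.Agent.Results.MP_f0dd41_co.FourCritical

theorem result : ∀ ε : ℝ, 0 < ε → ∃ n₀ : ℕ, ∀ n : ℕ, n₀ ≤ n →
    ∃ G : SimpleGraph (Fin n), G.chromaticNumber = 4 ∧
      (∀ e ∈ G.edgeSet, (G.deleteEdges {e}).chromaticNumber < 4) ∧
      (∀ v : Fin n, (G.induce ({v}ᶜ : Set (Fin n))).chromaticNumber < 4) ∧
      (1 / 14 - ε) * (n : ℝ) ^ 2 ≤ (Nat.card G.edgeSet : ℝ) :=
  FC14.exists_of_F_bound 3 le_rfl (1 / 14) FC14.four

end Pool.Agent.Results.MP_f0dd41_co.FourCritical
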