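import Pool.Agent.FKC.Final

/-!
For every `k ≥ 22` the limit of `F_k(n) / n ^ 2` exists and equals `(1 / 2) (1 - 1 / (k - 4))`; moreover
`F_k(n) ≤ (1 / 2) (1 - 1 / (k - 4)) n ^ 2` for all `n ≥ 10 ^ 6 (k - 1) ^ 2`.
-/

set_option autoImplicit false

namespace Pool.Agent.Results.MP_f0dd41_co.LimitLargeK

theorem result (k : ℕ) (hk : 22 ≤ k) :
    Filter.Tendsto
      (fun n : ℕ => ((sSup {m : ℕ | ∃ G : SimpleGraph (Fin n),
          G.chromaticNumber = (k : ℕ∞) ∧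
          (∀ e ∈ G.edgeSet, (G.deleteEdges {e}).chromaticNumber < (k : ℕ∞)) ∧
          (∀ v : Fin n, (G.induce ({v}ᶜ : Set (Fin n))).chromaticNumber < (k : ℕ∞)) ∧
          Nat.card G.edgeSet = m} : ℕ) : ℝ) / (n : ℝ) ^ 2)
      Filter.atTop (nhds (1 / 2 * (1 - 1 / ((k : ℝ) - 4)))) ∧
    (∀ n : ℕ, 1000000 * (k - 1) ^ 2 ≤ n → ∀ G : SimpleGraph (Fin n),
      G.chromaticNumber = (k : ℕ∞) →
      (∀ e ∈ G.edgeSet, (G.deleteEdges {e}).chromaticNumber < (k : ℕ∞)) →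
      (∀ v : Fin n, (G.induce ({v}ᶜ : Set (Fin n))).chromaticNumber < (k : ℕ∞)) →
      (Nat.card G.edgeSet : ℝ) ≤ 1 / 2 * (1 - 1 / ((k : ℝ) - 4)) * (n : ℝ) ^ 2) := by
  refine ⟨FKC.limit k hk, fun n hn G h1 h2 h3 => ?_⟩
  obtain ⟨q, rfl⟩ : ∃ q, k = q + 1 := ⟨k - 1, by omega⟩
  rw [Nat.add_sub_cancel] at hn
  have h4 := FKC.upper_edges (by omega) hn G (FC14.FC_of_spec (by omega) h1 h2 h3)
  have he : (((q + 1 : ℕ) : ℝ) - 4) = (q : ℝ) - 3 := by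
    push_cast
    ring
  rw [he]
  linarith

end Pool.Agent.Results.MP_f0dd41_co.LimitLargeK
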