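import Pool.Agent.FKL.LowF

/-!
For every `k ≥ 7`: `liminf F_k(n) / n ^ 2 ≥ (1 / 2) (1 - 1 / (k - 4))`.

The construction: `k - 4` independent sets of `p ^ 2` vertices (`p = 2 s + 1` odd), completely joined to each
other; the `p ^ 2` vertices of one set are the pairs of two pointers, each pointer being a set of `O(p)` further
vertices, and one gadget of bounded size closes the graph.
-/

set_option autoImplicit false

namespace Pool.Agent.Results.MP_f0dd41_co.LowerBound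

theorem result (k : ℕ) (hk : 7 ≤ k) :
    ∀ ε : ℝ, 0 < ε → ∃ n₀ : ℕ, ∀ n : ℕ, n₀ ≤ n →
      ∃ G : SimpleGraph (Fin n), G.chromaticNumber = (k : ℕ∞) ∧
        (∀ e ∈ G.edgeSet, (G.deleteEdges {e}).chromaticNumber < (k : ℕ∞)) ∧
        (∀ v : Fin n, (G.induce ({v}ᶜ : Set (Fin n))).chromaticNumber < (k : ℕ∞)) ∧
        (1 / 2 * (1 - 1 / ((k : ℝ) - 4)) - ε) * (n : ℝ) ^ 2 ≤ (Nat.card G.edgeSet : ℝ) := by
  intro ε hε
  obtain ⟨n₀, h⟩ := FKL.lower_exists k (by omega) ε hε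
  refine ⟨n₀, fun n hn => ?_⟩
  obtain ⟨G, h1, h2, h3, h4⟩ := h n hn
  refine ⟨G, h1, h2, h3, ?_⟩
  have e : (1 - 1 / ((k : ℝ) - 4)) / 2 = 1 / 2 * (1 - 1 / ((k : ℝ) - 4)) := by ring
  rw [e] at h4
  exact h4

end Pool.Agent.Results.MP_f0dd41_co.LowerBound
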